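import Mathlib
import Pool.Agent.Helper948.Ent.A1

set_option autoImplicit false

/-!
# The energy of sets of short sums over a set with a ratio property

`U` is a set of nonzero elements of a field, `W i` increasing finite sets of coefficients and `R i`
finite sets such that in every vanishing sum `∑ c j * u j`, `u j ∈ U`, whose coefficients are nonzero
and in `l e * W i`, every term has a partner with ratio in `R i`, and `W (i + 1)` contains
`x * w + w'` for `x ∈ R i`, `w, w' ∈ W i`. Then a finite set `A` of sums `∑ λ_b w_b`, `λ_b ∈ U`,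
`w_b ∈ W 0`, has a large subset with few solutions of `∑ l e * x e = 0`.
-/

namespace Pool.Agent.RAC963.KS

open Finset

section good

variable {F : Type} [Field F] {κ : Type} [Fintype κ] [DecidableEq κ]

/-- representations with `i` mergings -/
def Rep (U : Set F) (W : ℕ → Finset F) (z : F) (i : ℕ)
    (B : Finset κ) (lam w : κ → F) : Prop :=
  B.card + i ≤ Fintype.card κ ∧ (∀ b ∈ B, lam b ∈ U ∧ w b ∈ W i) ∧
    (∀ b, b ∉ B → lam b = 0 ∧ w b = 0) ∧ z = ∑ b ∈ B, lam b * w b

lemma good (U : Set F) (h0 : (0 : F) ∉ U) (W : ℕ → Finset F) (R : ℕ → Finset F)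
    (hmono1 : ∀ i, W i ⊆ W (i + 1))
    (hmerge : ∀ i, ∀ x ∈ R i, ∀ w ∈ W i, ∀ w' ∈ W i, x * w + w' ∈ W (i + 1)) (z : F)
    (h : ∃ (B : Finset κ) (lam w : κ → F), Rep U W z 0 B lam w) :
    ∃ (i : ℕ) (B : Finset κ) (lam w : κ → F), Rep U W z i B lam w ∧
      (∀ b ∈ B, w b ≠ 0) ∧
      ∀ b ∈ B, ∀ b' ∈ B, b ≠ b' → lam b / lam b' ∉ R i := by
  classical
  let P : ℕ → Prop := fun i => ∃ (B : Finset κ) (lam w : κ → F), Rep U W z i B lam w
  have hP0 : P 0 := h
  have hspec : P (Nat.findGreatest P (Fintype.card κ)) := Nat.findGreatest_spec (Nat.zero_le _) hP0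
  set i := Nat.findGreatest P (Fintype.card κ) with hi
  have hmax : ¬ P (i + 1) := by
    intro hh
    have h1 : i + 1 ≤ Fintype.card κ := by
      obtain ⟨B, lam, w, h2, _⟩ := hh
      omega
    have h2 : i + 1 ≤ i := Nat.le_findGreatest h1 hh
    omega
  obtain ⟨B, lam, w, h1, h2, h3, h4⟩ := hspec
  have hmono : ∀ x ∈ W i, x ∈ W (i + 1) := fun x hx => hmono1 i hx
  refine ⟨i, B, lam, w, ⟨h1, h2, h3, h4⟩, ?_, ?_⟩
  · intro b hb hw
    apply hmax
    refine ⟨B.erase b, fun x => if x = b then 0 else lam x, w, ?_, ?_, ?_, ?_⟩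
    · rw [Finset.card_erase_of_mem hb]
      have := Finset.card_pos.2 ⟨b, hb⟩
      omega
    · intro x hx
      rw [Finset.mem_erase] at hx
      simp only [if_neg hx.1]
      exact ⟨(h2 x hx.2).1, hmono _ (h2 x hx.2).2⟩
    · intro x hx
      rw [Finset.mem_erase, not_and_or, not_not] at hx
      by_cases hxb : x = b
      · beta_reduce
        rw [if_pos hxb]
        exact ⟨rfl, hxb ▸ hw⟩
      · beta_reduce
        rw [if_neg hxb]
        exact h3 x (hx.resolve_left hxb)
    · rw [h4, ← Finset.add_sum_erase B _ hb, hw, mul_zero, zero_add]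
      refine Finset.sum_congr rfl fun x hx => ?_
      rw [Finset.mem_erase] at hx
      beta_reduce
      rw [if_neg hx.1]
  · intro b hb b' hb' hbb hF
    apply hmax
    have hlb : lam b' ≠ 0 := fun h => h0 (h ▸ (h2 b' hb').1)
    refine ⟨B.erase b, fun x => if x = b then 0 else lam x,
      fun x => if x = b then 0 else if x = b' then (lam b / lam b') * w b + w b' else w x,
      ?_, ?_, ?_, ?_⟩
    · rw [Finset.card_erase_of_mem hb]
      have := Finset.card_pos.2 ⟨b, hb⟩
      omega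
    · intro x hx
      rw [Finset.mem_erase] at hx
      simp only [if_neg hx.1]
      refine ⟨(h2 x hx.2).1, ?_⟩
      split_ifs with hxb
      · exact hmerge i _ hF _ (h2 b hb).2 _ (h2 b' hb').2
      · exact hmono _ (h2 x hx.2).2
    · intro x hx
      rw [Finset.mem_erase, not_and_or, not_not] at hx
      by_cases hxb : x = b
      · beta_reduce
        rw [if_pos hxb, if_pos hxb]
        exact ⟨rfl, rfl⟩
      · have h5 := hx.resolve_left hxb
        have h6 : x ≠ b' := fun h => h5 (h ▸ hb')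
        beta_reduce
        rw [if_neg hxb, if_neg hxb, if_neg h6]
        exact h3 x h5
    · have hb'' : b' ∈ B.erase b := Finset.mem_erase.2 ⟨hbb.symm, hb'⟩
      rw [h4, ← Finset.add_sum_erase B _ hb, ← Finset.add_sum_erase (B.erase b) _ hb'',
        ← Finset.add_sum_erase (B.erase b) _ hb'']
      simp only [if_neg hbb.symm, if_true]
      have h5 : lam b' * (lam b / lam b' * w b + w b') = lam b * w b + lam b' * w b' := by
        field_simp
      rw [h5, add_assoc]
      congr 2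
      refine Finset.sum_congr rfl fun x hx => ?_
      rw [Finset.mem_erase, Finset.mem_erase] at hx
      rw [if_neg hx.2.1, if_neg hx.2.1, if_neg hx.1]

end good

/-- Shearer's inequality for sets which cover every point at least twice -/
lemma shearer2 {T A J : Type} [Fintype T] [Fintype J] (Fam : Finset (T → A)) (hne : Fam.Nonempty)
    (S : J → Finset T) (N : ℕ) (hcov : ∀ t, ∃ j1 j2, j1 ≠ j2 ∧ t ∈ S j1 ∧ t ∈ S j2)
    (hfib : ∀ j, ∃ Y : Finset ({t // t ∈ S j} → A), Y.card ≤ N ∧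
      ∀ x ∈ Fam, (fun t => x t.1) ∈ Y) :
    Fam.card ^ 2 ≤ N ^ Fintype.card J := by
  classical
  refine (Pool.Agent.Helper948.Ent.A1.shearer Fam hne S 2 fun t => ?_).trans ?_
  · obtain ⟨j1, j2, hne, h1, h2⟩ := hcov t
    exact Finset.one_lt_card.2 ⟨j1, Finset.mem_filter.2 ⟨Finset.mem_univ _, h1⟩, j2,
      Finset.mem_filter.2 ⟨Finset.mem_univ _, h2⟩, hne⟩
  · refine (Finset.prod_le_prod' (g := fun _ => N) fun j _ => ?_).trans (le_of_eq ?_)
    · obtain ⟨Y, hY, h⟩ := hfib j
      exact (Finset.card_le_card (Finset.image_subset_iff.2 h)).trans hY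
    · rw [Finset.prod_const, Finset.card_univ]

/-- number of patterns -/
def pc (E κ : Type) [Fintype E] [Fintype κ] (w r : ℕ) : ℕ :=
  ((2 ^ Fintype.card κ) ^ Fintype.card E * (((w + 1) ^ Fintype.card κ) ^ Fintype.card E)) *
    ((Fintype.card E * Fintype.card κ) ^ (Fintype.card E * Fintype.card κ) *
      (r + 1) ^ (Fintype.card E * Fintype.card κ))

theorem energy {F : Type} [Field F] [DecidableEq F] {κ : Type} [Fintype κ] [DecidableEq κ]
    (U : Set F) (h0 : (0 : F) ∉ U) (W : ℕ → Finset F) (R : ℕ → Finset F)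
    (hmono1 : ∀ i, W i ⊆ W (i + 1))
    (hmerge : ∀ i, ∀ x ∈ R i, ∀ w ∈ W i, ∀ w' ∈ W i, x * w + w' ∈ W (i + 1))
    {E : Type} [Fintype E] [DecidableEq E] (hE : 2 ≤ Fintype.card E) (l : E → F)
    (hl : ∀ e, l e ≠ 0)
    (hrat : ∀ i, ∀ (A : Finset (E × κ)) (c u : E × κ → F),
      (∀ j ∈ A, c j ≠ 0 ∧ ∃ w ∈ W i, c j = l j.1 * w) →
      (∀ j ∈ A, u j ∈ U) → ∑ j ∈ A, c j * u j = 0 →
      ∀ j ∈ A, ∃ j' ∈ A, j' ≠ j ∧ u j / u j' ∈ R i)
    (w0 r0 : ℕ) (hw0 : (W (Fintype.card κ)).card ≤ w0)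
    (hr0 : ∀ i ≤ Fintype.card κ, (R i).card ≤ r0)
    (A : Finset F)
    (hrep : ∀ z ∈ A, ∃ lam w : κ → F, (∀ b, lam b ∈ U ∧ w b ∈ W 0) ∧ z = ∑ b, lam b * w b) :
    ∃ A' ⊆ A, A.card ≤ (Fintype.card κ + 1) * A'.card ∧
      ((Fintype.piFinset (fun _ : E => A')).filter (fun x => ∑ e, l e * x e = 0)).card ^ 2 ≤
        pc E κ w0 r0 ^ 2 * A'.card ^ Fintype.card E := by
  classical
  have Ws_mono : ∀ {i j : ℕ}, i ≤ j → W i ⊆ W j := by
    intro i j h
    induction j, h using Nat.le_induction with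
    | base => exact Finset.Subset.refl _
    | succ j _ ih => exact ih.trans (hmono1 j)
  -- choose good representations
  have hgood : ∀ z : F, ∃ (i : ℕ) (B : Finset κ) (lam w : κ → F), z ∈ A →
      Rep U W z i B lam w ∧ (∀ b ∈ B, w b ≠ 0) ∧
      ∀ b ∈ B, ∀ b' ∈ B, b ≠ b' → lam b / lam b' ∉ R i := by
    intro z
    by_cases hz : z ∈ A
    · obtain ⟨lam, w, h1, h2⟩ := hrep z hz
      obtain ⟨i, B, lam', w', h3⟩ := good U h0 W R hmono1 hmerge z
        ⟨Finset.univ, lam, w, by simp, fun b _ => h1 b,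
          fun b hb => absurd (Finset.mem_univ b) hb, h2⟩
      exact ⟨i, B, lam', w', fun _ => h3⟩
    · exact ⟨0, ∅, fun _ => 0, fun _ => 0, fun h => absurd h hz⟩
  choose lev B lam w hq using hgood
  have hlev : ∀ z ∈ A, lev z ∈ Finset.range (Fintype.card κ + 1) := by
    intro z hz
    have := (hq z hz).1.1
    rw [Finset.mem_range]
    omega
  obtain ⟨i, hi, hmax⟩ := Finset.exists_max_image (Finset.range (Fintype.card κ + 1))
    (fun i => (A.filter (fun z => lev z = i)).card) ⟨0, by simp⟩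
  have hiK : i ≤ Fintype.card κ := by
    rw [Finset.mem_range] at hi
    omega
  obtain ⟨A', hA'⟩ : ∃ A', A' = A.filter (fun z => lev z = i) := ⟨_, rfl⟩
  rw [← hA'] at hmax
  have hcard : A.card ≤ (Fintype.card κ + 1) * A'.card := by
    rw [Finset.card_eq_sum_card_fiberwise (f := lev) (t := Finset.range (Fintype.card κ + 1))
      (fun z hz => hlev z hz)]
    refine (Finset.sum_le_card_nsmul _ _ _ fun x hx => hmax x hx).trans ?_
    rw [smul_eq_mul, Finset.card_range]
  refine ⟨A', hA' ▸ Finset.filter_subset _ _, hcard, ?_⟩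
  have hdat : ∀ z ∈ A', Rep U W z i (B z) (lam z) (w z) ∧ (∀ b ∈ B z, w z b ≠ 0) ∧
      ∀ b ∈ B z, ∀ b' ∈ B z, b ≠ b' → lam z b / lam z b' ∉ R i := by
    intro z hz
    rw [hA', Finset.mem_filter] at hz
    have h1 := hq z hz.1
    rw [hz.2] at h1
    exact h1
  obtain ⟨T, hT⟩ : ∃ T, T = (Fintype.piFinset (fun _ : E => A')).filter
    (fun x => ∑ e, l e * x e = 0) := ⟨_, rfl⟩
  rw [← hT]
  have hTA : ∀ x ∈ T, ∀ e, x e ∈ A' := by
    intro x hx e
    rw [hT, Finset.mem_filter, Fintype.mem_piFinset] at hx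
    exact hx.1 e
  -- the partners
  have hpart : ∀ x : E → F, ∃ (π : E × κ → E × κ) (ρ : E × κ → F), x ∈ T → ∀ j : E × κ,
      (j.2 ∈ B (x j.1) → ((π j).2 ∈ B (x (π j).1) ∧ (π j).1 ≠ j.1 ∧ ρ j ∈ R i ∧
        lam (x j.1) j.2 = ρ j * lam (x (π j).1) (π j).2)) ∧ (j.2 ∉ B (x j.1) → ρ j = 0) := by
    intro x
    by_cases hx : x ∈ T
    swap
    · exact ⟨fun j => j, fun _ => 0, fun h => absurd h hx⟩
    have hxA := hTA x hx
    have hx0 : ∑ e, l e * x e = 0 := by
      rw [hT, Finset.mem_filter] at hx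
      exact hx.2
    let J : Finset (E × κ) := Finset.univ.filter (fun j => j.2 ∈ B (x j.1))
    have hsum : ∑ j ∈ J, (l j.1 * w (x j.1) j.2) * lam (x j.1) j.2 = 0 := by
      refine Eq.trans ?_ hx0
      simp only [J]
      rw [Finset.sum_filter, Fintype.sum_prod_type]
      refine Finset.sum_congr rfl fun e _ => ?_
      simp only
      rw [← Finset.sum_filter, Finset.filter_mem_eq_inter, Finset.univ_inter]
      obtain ⟨⟨_, _, _, h4⟩, _, _⟩ := hdat (x e) (hxA e)
      have h7 : l e * x e = ∑ b ∈ B (x e), l e * (lam (x e) b * w (x e) b) := by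
        rw [← Finset.mul_sum]
        exact congrArg (fun y => l e * y) h4
      rw [h7]
      refine Finset.sum_congr rfl fun b _ => ?_
      ring
    have hj : ∀ j : E × κ, ∃ (j' : E × κ) (ρ : F),
        (j.2 ∈ B (x j.1) → (j'.2 ∈ B (x j'.1) ∧ j'.1 ≠ j.1 ∧ ρ ∈ R i ∧
          lam (x j.1) j.2 = ρ * lam (x j'.1) j'.2)) ∧ (j.2 ∉ B (x j.1) → ρ = 0) := by
      intro j
      by_cases hj : j.2 ∈ B (x j.1)
      swap
      · exact ⟨j, 0, fun h => absurd h hj, fun _ => rfl⟩
      obtain ⟨j', hj', hne, hR⟩ := hrat i J (fun j => l j.1 * w (x j.1) j.2)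
        (fun j => lam (x j.1) j.2)
        (by
          intro j hj
          simp only [J, Finset.mem_filter, Finset.mem_univ, true_and] at hj
          obtain ⟨⟨_, h2, _, _⟩, h5, _⟩ := hdat (x j.1) (hxA j.1)
          exact ⟨mul_ne_zero (hl _) (h5 _ hj), _, (h2 _ hj).2, rfl⟩)
        (by
          intro j hj
          simp only [J, Finset.mem_filter, Finset.mem_univ, true_and] at hj
          obtain ⟨⟨_, h2, _, _⟩, _, _⟩ := hdat (x j.1) (hxA j.1)
          exact (h2 _ hj).1) hsum j (Finset.mem_filter.2 ⟨Finset.mem_univ _, hj⟩)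
      simp only [J, Finset.mem_filter, Finset.mem_univ, true_and] at hj'
      refine ⟨j', lam (x j.1) j.2 / lam (x j'.1) j'.2, fun _ => ⟨hj', ?_, hR, ?_⟩,
        fun h => absurd hj h⟩
      · intro he
        obtain ⟨e, b⟩ := j
        obtain ⟨e', b'⟩ := j'
        simp only at he hj hj' hR hne
        subst he
        obtain ⟨_, _, h6⟩ := hdat (x e') (hxA e')
        refine h6 b hj b' hj' ?_ hR
        rintro rfl
        exact hne rfl
      · have hne0 : lam (x j'.1) j'.2 ≠ 0 := by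
          obtain ⟨⟨_, h2, _, _⟩, _, _⟩ := hdat (x j'.1) (hxA j'.1)
          exact fun h => h0 (h ▸ (h2 _ hj').1)
        rw [div_mul_cancel₀ _ hne0]
    choose π ρ h using hj
    exact ⟨π, ρ, fun _ => h⟩
  choose π ρ hpr using hpart
  -- the patterns
  let Pset : Finset (((E → Finset κ) × (E → κ → F)) × ((E × κ → E × κ) × (E × κ → F))) :=
    ((Finset.univ : Finset (E → Finset κ)) ×ˢ
      Fintype.piFinset (fun _ : E => Fintype.piFinset (fun _ : κ =>
        insert 0 (W (Fintype.card κ))))) ×ˢ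
    ((Finset.univ : Finset (E × κ → E × κ)) ×ˢ
      Fintype.piFinset (fun _ : E × κ => insert 0 (R i)))
  have hPc : Pset.card ≤ pc E κ w0 r0 := by
    simp only [Pset]
    rw [Finset.card_product, Finset.card_product, Finset.card_product, Fintype.card_piFinset,
      Fintype.card_piFinset, Finset.prod_const, Finset.prod_const, Finset.card_univ,
      Finset.card_univ, Finset.card_univ, Finset.card_univ, Fintype.card_fun, Fintype.card_fun,
      Fintype.card_finset, Fintype.card_prod, Fintype.card_piFinset, Finset.prod_const,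
      Finset.card_univ, pc]
    refine Nat.mul_le_mul (Nat.mul_le_mul_left _ ?_) (Nat.mul_le_mul_left _ ?_)
    · refine Nat.pow_le_pow_left (Nat.pow_le_pow_left ?_ _) _
      exact (Finset.card_insert_le _ _).trans (by omega)
    · rw [Fintype.card_prod]
      refine Nat.pow_le_pow_left ?_ _
      have := hr0 i hiK
      exact (Finset.card_insert_le _ _).trans (by omega)
  let P : (E → F) → ((E → Finset κ) × (E → κ → F)) × ((E × κ → E × κ) × (E × κ → F)) :=
    fun x => ((fun e => B (x e), fun e => w (x e)), (π x, ρ x))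
  have hPP : ∀ x ∈ T, P x ∈ Pset := by
    intro x hx
    refine Finset.mem_product.2 ⟨Finset.mem_product.2 ⟨Finset.mem_univ _,
      Fintype.mem_piFinset.2 fun e => Fintype.mem_piFinset.2 fun b => ?_⟩,
      Finset.mem_product.2 ⟨Finset.mem_univ _, Fintype.mem_piFinset.2 fun j => ?_⟩⟩
    · obtain ⟨⟨_, h2, h3, _⟩, _, _⟩ := hdat (x e) (hTA x hx e)
      show w (x e) b ∈ _
      by_cases hb : b ∈ B (x e)
      · exact Finset.mem_insert_of_mem (Ws_mono hiK (h2 b hb).2)
      · rw [(h3 b hb).2]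
        exact Finset.mem_insert_self _ _
    · show ρ x j ∈ _
      by_cases hj : j.2 ∈ B (x j.1)
      · exact Finset.mem_insert_of_mem ((hpr x hx j).1 hj).2.2.1
      · rw [(hpr x hx j).2 hj]
        exact Finset.mem_insert_self _ _
  rcases T.eq_empty_or_nonempty with hTe | hTne
  · rw [hTe, Finset.card_empty]
    simp
  have hPne : Pset.Nonempty := by
    obtain ⟨x, hx⟩ := hTne
    exact ⟨P x, hPP x hx⟩
  obtain ⟨Q, _, hmaxQ⟩ := Finset.exists_max_image Pset
    (fun Q => (T.filter (fun x => P x = Q)).card) hPne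
  obtain ⟨TQ, hTQ⟩ : ∃ TQ, TQ = T.filter (fun x => P x = Q) := ⟨_, rfl⟩
  rw [← hTQ] at hmaxQ
  have hcardT : T.card ≤ Pset.card * TQ.card := by
    rw [Finset.card_eq_sum_card_fiberwise (f := P) (t := Pset) (fun x hx => hPP x hx)]
    refine (Finset.sum_le_card_nsmul _ _ _ fun x hx => hmaxQ x hx).trans ?_
    rw [smul_eq_mul]
  -- the fibre
  suffices hmain : TQ.card ^ 2 ≤ A'.card ^ Fintype.card E by
    calc T.card ^ 2 ≤ (Pset.card * TQ.card) ^ 2 := Nat.pow_le_pow_left hcardT 2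
      _ = Pset.card ^ 2 * TQ.card ^ 2 := mul_pow _ _ _
      _ ≤ pc E κ w0 r0 ^ 2 * A'.card ^ Fintype.card E :=
          Nat.mul_le_mul (Nat.pow_le_pow_left hPc 2) hmain
  rcases TQ.eq_empty_or_nonempty with hTe | hTQne
  · rw [hTe, Finset.card_empty]
    simp
  obtain ⟨⟨B0, wq⟩, ⟨π0, ρ0⟩⟩ := Q
  have hQ : ∀ x ∈ TQ, x ∈ T ∧ (∀ e, B (x e) = B0 e) ∧ (∀ e, w (x e) = wq e) ∧ π x = π0 ∧
      ρ x = ρ0 := by
    intro x hx
    rw [hTQ, Finset.mem_filter] at hx
    obtain ⟨h1, h2⟩ := hx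
    simp only [P, Prod.mk.injEq] at h2
    exact ⟨h1, fun e => congrFun h2.1.1 e, fun e => congrFun h2.1.2 e, h2.2.1, h2.2.2⟩
  let Λ : (E → F) → (E × κ → F) := fun x t => lam (x t.1) t.2
  have hinj : Set.InjOn Λ (TQ : Set (E → F)) := by
    intro x hx y hy hxy
    obtain ⟨h1, h2, h3, _, _⟩ := hQ x hx
    obtain ⟨h1', h2', h3', _, _⟩ := hQ y hy
    funext e
    obtain ⟨⟨_, _, _, h4⟩, _, _⟩ := hdat (x e) (hTA x h1 e)
    obtain ⟨⟨_, _, _, h4'⟩, _, _⟩ := hdat (y e) (hTA y h1' e)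
    rw [h4, h4', h2, h2', h3, h3']
    refine Finset.sum_congr rfl fun b _ => ?_
    rw [show lam (x e) b = lam (y e) b from congrFun hxy (e, b)]
  let Fam : Finset (E × κ → F) := TQ.image Λ
  have hFam : Fam.card = TQ.card := Finset.card_image_of_injOn hinj
  let S : E → Finset (E × κ) := fun e =>
    Finset.univ.filter (fun t => t.1 = e ∨ (π0 t).1 = e ∨ t.2 ∉ B0 t.1)
  rw [← hFam]
  refine shearer2 Fam (hTQne.image _) S A'.card (fun t => ?_) (fun e => ?_)
  · by_cases ht : t.2 ∈ B0 t.1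
    · obtain ⟨x, hx⟩ := hTQne
      obtain ⟨h1, h2, _, h5, _⟩ := hQ x hx
      have h6 := (hpr x h1 t).1 (by rw [h2]; exact ht)
      rw [h5] at h6
      exact ⟨t.1, (π0 t).1, h6.2.1.symm, Finset.mem_filter.2 ⟨Finset.mem_univ _, Or.inl rfl⟩,
        Finset.mem_filter.2 ⟨Finset.mem_univ _, Or.inr (Or.inl rfl)⟩⟩
    · obtain ⟨e1, e2, he⟩ := Fintype.exists_pair_of_one_lt_card hE
      exact ⟨e1, e2, he, Finset.mem_filter.2 ⟨Finset.mem_univ _, Or.inr (Or.inr ht)⟩,
        Finset.mem_filter.2 ⟨Finset.mem_univ _, Or.inr (Or.inr ht)⟩⟩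
  · let g : F → ({t // t ∈ S e} → F) := fun y t =>
      if t.1.2 ∉ B0 t.1.1 then 0 else if t.1.1 = e then lam y t.1.2
        else ρ0 t.1 * lam y (π0 t.1).2
    refine ⟨A'.image g, Finset.card_image_le, fun y hy => ?_⟩
    simp only [Fam, Finset.mem_image] at hy
    obtain ⟨x, hx, rfl⟩ := hy
    obtain ⟨h1, h2, h3, h4, h5⟩ := hQ x hx
    refine Finset.mem_image.2 ⟨x e, hTA x h1 e, ?_⟩
    funext t
    obtain ⟨t, ht⟩ := t
    simp only [S, Finset.mem_filter, Finset.mem_univ, true_and] at ht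
    simp only [g, Λ]
    by_cases hb : t.2 ∈ B0 t.1
    · rw [if_neg (not_not.2 hb)]
      split_ifs with he
      · rw [he]
      · have h6 : (π0 t).1 = e := by
          rcases ht with h | h | h
          · exact absurd h he
          · exact h
          · exact absurd hb h
        have h7 := ((hpr x h1 t).1 (by rw [h2]; exact hb)).2.2.2
        rw [h4, h5, h6] at h7
        exact h7.symm
    · rw [if_pos hb]
      obtain ⟨⟨_, _, h8, _⟩, _, _⟩ := hdat (x t.1) (hTA x h1 t.1)
      exact ((h8 t.2 (by rw [h2]; exact hb)).1).symm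

end Pool.Agent.RAC963.KS
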