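import Mathlib
import Pool.Agent.RAC963.KS.Core

set_option autoImplicit false

/-! # The size of the set of the values of a linear form on a set of short sums -/

namespace Pool.Agent.RAC963.KS

open Finset

theorem cs {F : Type} [Field F] [DecidableEq F] (k : ℕ) (l : Fin k → F) (A : Finset F) :
    (A.card ^ k) ^ 2 ≤
      ((Fintype.piFinset (fun _ : Fin k => A)).image (fun y => ∑ i, l i * y i)).card *
      ((Fintype.piFinset (fun _ : Fin k × Bool => A)).filter
        (fun x => ∑ e, (if e.2 then l e.1 else - l e.1) * x e = 0)).card := by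
  classical
  obtain ⟨P, hPd⟩ : ∃ P, P = Fintype.piFinset (fun _ : Fin k => A) := ⟨_, rfl⟩
  let f : (Fin k → F) → F := fun y => ∑ i, l i * y i
  have hP : P.card = A.card ^ k := by
    rw [hPd, Fintype.card_piFinset, Finset.prod_const, Finset.card_univ, Fintype.card_fin]
  have h1 : P.card = ∑ v ∈ P.image f, (P.filter (fun y => f y = v)).card :=
    Finset.card_eq_sum_card_image f P
  have h2 : (∑ v ∈ P.image f, (P.filter (fun y => f y = v)).card) ^ 2 ≤
      (P.image f).card * ∑ v ∈ P.image f, (P.filter (fun y => f y = v)).card ^ 2 :=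
    sq_sum_le_card_mul_sum_sq
  have h3 : ∑ v ∈ P.image f, (P.filter (fun y => f y = v)).card ^ 2 =
      ((P ×ˢ P).filter (fun p => f p.1 = f p.2)).card := by
    rw [Finset.card_eq_sum_card_fiberwise (s := (P ×ˢ P).filter (fun p => f p.1 = f p.2))
      (f := fun p => f p.1) (t := P.image f) (fun p hp => by
        simp only [Finset.coe_filter, Finset.mem_product, Set.mem_ofPred_eq] at hp
        exact Finset.mem_image_of_mem f hp.1.1)]
    refine Finset.sum_congr rfl fun v _ => ?_
    rw [sq, ← Finset.card_product]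
    congr 1
    ext ⟨a, b⟩
    simp only [Finset.mem_product, Finset.mem_filter]
    constructor
    · rintro ⟨⟨h4, h5⟩, h6, h7⟩
      exact ⟨⟨⟨h4, h6⟩, h5.trans h7.symm⟩, h5⟩
    · rintro ⟨⟨⟨h4, h5⟩, h6⟩, h7⟩
      exact ⟨⟨h4, h7⟩, h5, h6.symm.trans h7⟩
  have h4 : ((P ×ˢ P).filter (fun p => f p.1 = f p.2)).card ≤
      ((Fintype.piFinset (fun _ : Fin k × Bool => A)).filter
        (fun x => ∑ e, (if e.2 then l e.1 else - l e.1) * x e = 0)).card := by
    refine Finset.card_le_card_of_injOn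
      (fun p e => if e.2 then p.1 e.1 else p.2 e.1) ?_ ?_
    · intro p hp
      simp only [Finset.coe_filter, Finset.mem_product, Set.mem_ofPred_eq, hPd,
        Fintype.mem_piFinset] at hp ⊢
      obtain ⟨⟨h5, h6⟩, h7⟩ := hp
      refine ⟨fun e => ?_, ?_⟩
      · split_ifs
        · exact h5 _
        · exact h6 _
      · rw [Fintype.sum_prod_type]
        simp only [Fintype.sum_bool, if_true, Bool.false_eq_true, if_false, neg_mul]
        rw [Finset.sum_add_distrib, Finset.sum_neg_distrib]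
        have h8 : ∑ i, l i * p.1 i = ∑ i, l i * p.2 i := h7
        rw [h8]
        ring
    · intro p _ p' _ h
      refine Prod.ext ?_ ?_
      · funext i
        have := congrFun h (i, true)
        simpa using this
      · funext i
        have := congrFun h (i, false)
        simpa using this
  rw [← hP, ← hPd]
  calc P.card ^ 2 = (∑ v ∈ P.image f, (P.filter (fun y => f y = v)).card) ^ 2 := by rw [← h1]
    _ ≤ (P.image f).card * ∑ v ∈ P.image f, (P.filter (fun y => f y = v)).card ^ 2 := h2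
    _ ≤ _ := by
        rw [h3]
        exact Nat.mul_le_mul_left _ h4

theorem kfold {F : Type} [Field F] [DecidableEq F] {κ : Type} [Fintype κ] [DecidableEq κ]
    (U : Set F) (h0 : (0 : F) ∉ U) (W : ℕ → Finset F) (R : ℕ → Finset F)
    (hmono1 : ∀ i, W i ⊆ W (i + 1))
    (hmerge : ∀ i, ∀ x ∈ R i, ∀ w ∈ W i, ∀ w' ∈ W i, x * w + w' ∈ W (i + 1))
    (k : ℕ) (hk : 1 ≤ k) (l : Fin k → F) (hl : ∀ e, l e ≠ 0)
    (hrat : ∀ i, ∀ (A : Finset ((Fin k × Bool) × κ)) (c u : (Fin k × Bool) × κ → F),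
      (∀ j ∈ A, c j ≠ 0 ∧ ∃ w ∈ W i, c j = l j.1.1 * w ∨ c j = - (l j.1.1 * w)) →
      (∀ j ∈ A, u j ∈ U) → ∑ j ∈ A, c j * u j = 0 →
      ∀ j ∈ A, ∃ j' ∈ A, j' ≠ j ∧ u j / u j' ∈ R i)
    (w0 r0 : ℕ) (hw0 : (W (Fintype.card κ)).card ≤ w0)
    (hr0 : ∀ i ≤ Fintype.card κ, (R i).card ≤ r0)
    (A : Finset F)
    (hrep : ∀ z ∈ A, ∃ lam w : κ → F, (∀ b, lam b ∈ U ∧ w b ∈ W 0) ∧ z = ∑ b, lam b * w b) :
    A.card ^ k ≤ ((Fintype.card κ + 1) ^ k * pc (Fin k × Bool) κ w0 r0) *
      ((Fintype.piFinset (fun _ : Fin k => A)).image (fun y => ∑ i, l i * y i)).card := by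
  classical
  have hE : 2 ≤ Fintype.card (Fin k × Bool) := by
    rw [Fintype.card_prod, Fintype.card_fin, Fintype.card_bool]
    omega
  obtain ⟨A', hsub, hcard, hen⟩ := energy U h0 W R hmono1 hmerge hE
    (fun e => if e.2 then l e.1 else - l e.1)
    (fun e => by
      beta_reduce
      split_ifs
      · exact hl _
      · exact neg_ne_zero.2 (hl _))
    (fun i A c u hc hu hs j hj => hrat i A c u (fun j hj => by
      obtain ⟨h1, w, hw, h2⟩ := hc j hj
      refine ⟨h1, w, hw, ?_⟩
      rw [h2]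
      split_ifs
      · exact Or.inl rfl
      · exact Or.inr (neg_mul _ _)) hu hs j hj)
    w0 r0 hw0 hr0 A hrep
  have hcs := cs k l A'
  obtain ⟨T, hT⟩ : ∃ T, T = ((Fintype.piFinset (fun _ : Fin k × Bool => A')).filter
        (fun x => ∑ e, (if e.2 then l e.1 else - l e.1) * x e = 0)).card := ⟨_, rfl⟩
  rw [← hT] at hcs
  have hen' : T ^ 2 ≤ (pc (Fin k × Bool) κ w0 r0 * A'.card ^ k) ^ 2 := by
    rw [Fintype.card_prod, Fintype.card_fin, Fintype.card_bool] at hen
    rw [mul_pow, ← pow_mul, hT]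
    exact hen
  have hT2 : T ≤ pc (Fin k × Bool) κ w0 r0 * A'.card ^ k :=
    (Nat.pow_le_pow_iff_left two_ne_zero).1 hen'
  have himg : ((Fintype.piFinset (fun _ : Fin k => A')).image (fun y => ∑ i, l i * y i)).card ≤
      ((Fintype.piFinset (fun _ : Fin k => A)).image (fun y => ∑ i, l i * y i)).card := by
    refine Finset.card_le_card (Finset.image_subset_image ?_)
    exact Fintype.piFinset_subset _ _ fun _ => hsub
  have h5 : A'.card ^ k ≤ pc (Fin k × Bool) κ w0 r0 *
      ((Fintype.piFinset (fun _ : Fin k => A)).image (fun y => ∑ i, l i * y i)).card := by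
    rcases Nat.eq_zero_or_pos (A'.card ^ k) with h6 | h6
    · rw [h6]
      exact Nat.zero_le _
    · refine Nat.le_of_mul_le_mul_right ?_ h6
      calc A'.card ^ k * A'.card ^ k = (A'.card ^ k) ^ 2 := (sq _).symm
        _ ≤ _ := hcs
        _ ≤ ((Fintype.piFinset (fun _ : Fin k => A)).image (fun y => ∑ i, l i * y i)).card *
            (pc (Fin k × Bool) κ w0 r0 * A'.card ^ k) := Nat.mul_le_mul himg hT2
        _ = _ := by ring
  calc A.card ^ k ≤ ((Fintype.card κ + 1) * A'.card) ^ k := Nat.pow_le_pow_left hcard k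
    _ = (Fintype.card κ + 1) ^ k * A'.card ^ k := mul_pow _ _ _
    _ ≤ (Fintype.card κ + 1) ^ k * (pc (Fin k × Bool) κ w0 r0 *
        ((Fintype.piFinset (fun _ : Fin k => A)).image (fun y => ∑ i, l i * y i)).card) :=
        Nat.mul_le_mul_left _ h5
    _ = _ := by ring

end Pool.Agent.RAC963.KS
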