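import Mathlib
import Pool.Agent.Y215.SK.FinC

set_option autoImplicit false

/-! # The ratios of the terms of vanishing sums over a group of finite rank -/

namespace Pool.Agent.RAC963.KS

open Finset NumberField Height Module
open Pool.Agent.Helper259.AbsHt Pool.Agent.H533R3.SL Pool.Agent.Y215.SK Pool.Agent.Y215.SP

/-- the diagonal vectors -/
noncomputable def dv {n : ℕ} (c : Fin (n + 1) → Qbar) (j a : Fin (n + 1)) : Qbar :=
  if a = j then c j else 0

lemma psum_dv {n : ℕ} (J : Finset (Fin (n + 1))) (u : Fin (n + 1) → Qbarˣ)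
    (c : Fin (n + 1) → Qbar) (a : Fin (n + 1)) :
    psum J u (dv c) a = if a ∈ J then (u a : Qbar) * c a else 0 := by
  classical
  unfold psum dv
  simp only [mul_ite, mul_zero]
  rw [Finset.sum_ite_eq]

/-- the equation -/
noncomputable def eqP (n : ℕ) (_ : Fin 1) : MvPolynomial (Fin (n + 1)) ℚ :=
  ∑ a, MvPolynomial.X a

/-- the product of the partial sums -/
noncomputable def eqG (n : ℕ) : MvPolynomial (Fin (n + 1)) ℚ :=
  ∏ J ∈ (Finset.univ : Finset (Finset (Fin (n + 1)))).filter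
    (fun J => J.Nonempty ∧ J ≠ Finset.univ), ∑ a ∈ J, MvPolynomial.X a

lemma aeval_eqP {n : ℕ} {L : Type} [CommRing L] [Algebra ℚ L] (x : Fin (n + 1) → L) (i : Fin 1) :
    MvPolynomial.aeval x (eqP n i) = ∑ a, x a := by
  unfold eqP
  rw [map_sum]
  simp

lemma aeval_eqG {n : ℕ} {L : Type} [CommRing L] [Algebra ℚ L] (x : Fin (n + 1) → L) :
    MvPolynomial.aeval x (eqG n) =
      ∏ J ∈ (Finset.univ : Finset (Finset (Fin (n + 1)))).filter
        (fun J => J.Nonempty ∧ J ≠ Finset.univ), ∑ a ∈ J, x a := by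
  unfold eqG
  rw [map_prod]
  refine Finset.prod_congr rfl fun J _ => ?_
  rw [map_sum]
  simp

lemma eqP_hom (n : ℕ) (i : Fin 1) : (eqP n i).IsHomogeneous 1 :=
  MvPolynomial.IsHomogeneous.sum _ _ _ fun _ _ => MvPolynomial.isHomogeneous_X _ _

lemma eqG_hom (n : ℕ) : ∃ e, (eqG n).IsHomogeneous e :=
  ⟨_, MvPolynomial.IsHomogeneous.prod _ _ (fun _ => 1) fun _ _ =>
    MvPolynomial.IsHomogeneous.sum _ _ _ fun _ _ => MvPolynomial.isHomogeneous_X _ _⟩

lemma eq_hG (n : ℕ) (L : Type) [Field L] [Algebra ℚ L] (c : Fin (n + 1) → Fin (n + 1) → L)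
    (l : Fin (n + 1) → ℕ)
    (hT : ∀ j a, (j, a) ∉ {p : Fin (n + 1) × Fin (n + 1) | p.1 = p.2} → c j a = 0)
    (hP : ∀ i, MvPolynomial.aeval (cur c l) (eqP n i) = 0)
    (hne : ∃ i i', cur c l i * Polynomial.C (∑ j, c j i') ≠
          cur c l i' * Polynomial.C (∑ j, c j i)) :
    MvPolynomial.aeval (fun i => ∑ j, c j i) (eqG n) = 0 := by
  classical
  have hcur : ∀ a, cur c l a = Polynomial.C (c a a) * Polynomial.X ^ l a := by
    intro a
    unfold cur
    rw [Finset.sum_eq_single a]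
    · intro j _ hj
      rw [hT j a hj]
      simp
    · intro h
      exact absurd (Finset.mem_univ _) h
  have hs : ∀ a, ∑ j, c j a = c a a := by
    intro a
    rw [Finset.sum_eq_single a]
    · intro j _ hj
      exact hT j a hj
    · intro h
      exact absurd (Finset.mem_univ _) h
  obtain ⟨i, i', hne⟩ := hne
  rw [hs, hs, hcur, hcur] at hne
  have hl : l i ≠ l i' := by
    intro h
    apply hne
    rw [h]
    ring
  have h1 := hP 0
  rw [aeval_eqP] at h1
  simp only [hcur] at h1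
  have h2 := congrArg (fun p : Polynomial L => p.coeff (l i)) h1
  simp only [Polynomial.finsetSum_coeff, Polynomial.coeff_C_mul, Polynomial.coeff_X_pow,
    Polynomial.coeff_zero, mul_ite, mul_one, mul_zero] at h2
  rw [← Finset.sum_filter] at h2
  rw [aeval_eqG]
  refine Finset.prod_eq_zero (i := Finset.univ.filter (fun a => l i = l a)) ?_ ?_
  · rw [Finset.mem_filter]
    refine ⟨Finset.mem_univ _, ⟨i, by simp⟩, fun h => ?_⟩
    have h3 : i' ∈ Finset.univ.filter (fun a => l i = l a) := by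
      rw [h]
      exact Finset.mem_univ _
    rw [Finset.mem_filter] at h3
    exact hl h3.2
  · simp only [hs]
    exact h2

theorem hV_dv {n : ℕ} (c : Fin (n + 1) → Qbar) (B : ℝ) (hc : ∀ j, h1 (c j) ≤ B) :
    hV (dv c) ≤ (n + 1) * B := by
  classical
  unfold hV
  refine (height_le_sum _).trans ?_
  rw [Fintype.sum_prod_type]
  have h2 : ∀ j : Fin (n + 1), ∑ a, h1 (dv c j a) ≤ B := by
    intro j
    rw [Finset.sum_eq_single j]
    · unfold dv
      rw [if_pos rfl]
      exact hc j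
    · intro a _ ha
      unfold dv
      rw [if_neg ha, h1_zero]
    · intro h
      exact absurd (Finset.mem_univ _) h
  refine (Finset.sum_le_sum fun j _ => h2 j).trans ?_
  rw [Finset.sum_const, Finset.card_univ, Fintype.card_fin, nsmul_eq_mul]
  push_cast
  exact le_rfl

/-- **The unit equation with coefficients**: few ratios, of small height. -/
theorem sols (Γ : Subgroup Qbarˣ) (hΓ : Γ.FG) (n : ℕ) :
    ∃ M : ℕ, ∀ (B : ℝ), 1 ≤ B → ∀ c : Fin (n + 1) → Qbar, (∀ j, c j ≠ 0) →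
      (∀ j, h1 (c j) ≤ B) → ∃ R : Finset Qbar, (R.card : ℝ) ≤ M * B ^ M ∧
      (∀ x ∈ R, h1 x ≤ M * B) ∧
      ∀ u : Fin (n + 1) → Qbarˣ, (∀ j, u j ∈ DivHull Γ) → ∑ j, c j * (u j : Qbar) = 0 →
        (∀ J : Finset (Fin (n + 1)), J.Nonempty → ∑ j ∈ J, c j * (u j : Qbar) = 0 → J = univ) →
        ∀ i j, (u i : Qbar) / u j ∈ R := by
  classical
  obtain ⟨A, e, hA⟩ := mix_finiteT (k := ℚ) (r := n + 1) (eqP n) 1 le_rfl
    (fun i => ⟨1, le_rfl, eqP_hom n i⟩) (eqG n) (eqG_hom n)
    {p : Fin (n + 1) × Fin (n + 1) | p.1 = p.2}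
    (fun L _ _ c l h1 h2 h3 => eq_hG n L c l h1 h2 h3) Γ hΓ
  obtain ⟨C, hC⟩ := mult_boundT (k := ℚ) (r := n + 1) (eqP n)
    (fun i => ⟨1, eqP_hom n i⟩) (eqG n) (eqG_hom n)
    {p : Fin (n + 1) × Fin (n + 1) | p.1 = p.2}
    (fun L _ _ c l h1 h2 h3 => eq_hG n L c l h1 h2 h3) Γ hΓ
  obtain ⟨M1, hM1⟩ := exists_nat_gt (|C| * (n + 2))
  obtain ⟨M2, hM2⟩ := exists_nat_gt (|A| * (n + 2) ^ e * (n + 1) ^ 2)
  refine ⟨M1 + M2 + e, fun B hB c hc0 hcB => ?_⟩
  have hB0 : 0 ≤ B := by linarith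
  have hhV : 1 + hV (dv c) ≤ (n + 2) * B := by
    have h2 := hV_dv c B hcB
    linarith
  have hhV0 : 0 ≤ hV (dv c) := absLogHeight_nonneg _
  obtain ⟨ε, hε⟩ : ∃ ε : ℝ, ε = epsn ((1 + 1) ^ (n + 1)) / (1 : ℕ) / 2 := ⟨_, rfl⟩
  have hε0 : 0 < ε := by
    rw [hε]
    have h2 := epsn_pos ((1 + 1) ^ (n + 1)) (Nat.one_le_pow _ _ (by omega))
    positivity
  obtain ⟨hfin, hcard⟩ := hA (dv c) (fun j a hja => by
    unfold dv
    rw [if_neg (fun h => hja h.symm)])
  rw [← hε] at hfin hcard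
  let S : Finset Qbar := (hfin.toFinset ×ˢ
    ((Finset.univ : Finset (Fin (n + 1))) ×ˢ (Finset.univ : Finset (Fin (n + 1))))).image
    (fun q => (q.1.rep q.2.1 / c q.2.1) / (q.1.rep q.2.2 / c q.2.2))
  have hScard : (S.card : ℝ) ≤ M2 * B ^ e := by
    have h2 : S.card ≤ hfin.toFinset.card * ((n + 1) * (n + 1)) := by
      refine Finset.card_image_le.trans ?_
      rw [Finset.card_product, Finset.card_product, Finset.card_univ, Fintype.card_fin]
    have h3 : (hfin.toFinset.card : ℝ) ≤ |A| * ((n + 2) * B) ^ e := by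
      rw [← Set.ncard_eq_toFinset_card _ hfin]
      refine hcard.trans ?_
      refine mul_le_mul (le_abs_self _) (pow_le_pow_left₀ (by linarith) hhV _) (by positivity)
        (abs_nonneg _)
    calc (S.card : ℝ) ≤ hfin.toFinset.card * ((n + 1) * (n + 1)) := by exact_mod_cast h2
      _ ≤ (|A| * ((n + 2) * B) ^ e) * ((n + 1) * (n + 1)) :=
          mul_le_mul_of_nonneg_right h3 (by positivity)
      _ = (|A| * (n + 2) ^ e * (n + 1) ^ 2) * B ^ e := by
          rw [mul_pow]
          ring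
      _ ≤ M2 * B ^ e := mul_le_mul_of_nonneg_right hM2.le (by positivity)
  refine ⟨S.filter (fun x => h1 x ≤ M1 * B), ?_, ?_, ?_⟩
  · have h2 : ((S.filter (fun x => h1 x ≤ M1 * B)).card : ℝ) ≤ S.card := by
      exact_mod_cast Finset.card_filter_le _ _
    refine h2.trans (hScard.trans ?_)
    have h3 : B ^ e ≤ B ^ (M1 + M2 + e) := pow_le_pow_right₀ hB (by omega)
    refine mul_le_mul ?_ h3 (by positivity) (by positivity)
    push_cast
    linarith [(Nat.cast_nonneg M1 : (0 : ℝ) ≤ M1), (Nat.cast_nonneg e : (0 : ℝ) ≤ e)]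
  · intro x hx
    rw [Finset.mem_filter] at hx
    refine hx.2.trans (mul_le_mul_of_nonneg_right ?_ hB0)
    push_cast
    linarith [(Nat.cast_nonneg M2 : (0 : ℝ) ≤ M2), (Nat.cast_nonneg e : (0 : ℝ) ≤ e)]
  intro u hu hsum hnd i j
  have hps : ∀ a, psum univ u (dv c) a = (u a : Qbar) * c a := by
    intro a
    rw [psum_dv, if_pos (Finset.mem_univ _)]
  have hne : ∀ a, (u a : Qbar) * c a ≠ 0 := fun a => mul_ne_zero (u a).ne_zero (hc0 a)
  have hx0 : psum univ u (dv c) ≠ 0 := by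
    intro h
    have h2 := congrFun h i
    rw [hps] at h2
    exact hne i h2
  have hon : OnOff (eqP n) (eqG n) (psum univ u (dv c)) := by
    refine ⟨hx0, fun i => ?_, ?_⟩
    · rw [aeval_eqP, ← hsum]
      exact Finset.sum_congr rfl fun a _ => by rw [hps, mul_comm]
    · rw [aeval_eqG, Finset.prod_ne_zero_iff]
      intro J hJ h
      rw [Finset.mem_filter] at hJ
      refine hJ.2.2 (hnd J hJ.2.1 ?_)
      rw [← h]
      exact Finset.sum_congr rfl fun a _ => by rw [hps, mul_comm]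
  rw [Finset.mem_filter]
  constructor
  · have hs1 : (fun (j a : Fin (n + 1)) => (fun _ : Fin (n + 1) => (1 : Qbar)) j * dv c j a) =
        dv c := by
      funext j a
      simp
    have hs2 : absLogHeight (fun _ : Fin (n + 1) => (1 : Qbar)) = 0 := by
      have h2 := height_le_sum (fun _ : Fin (n + 1) => (1 : Qbar))
      simp only [h1_one, Finset.sum_const_zero] at h2
      exact le_antisymm h2 (absLogHeight_nonneg _)
    have hmem : Projectivization.mk Qbar (psum univ u (dv c)) hx0 ∈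
        mixPts (eqP n) (eqG n) Γ ε (dv c) := by
      refine ⟨u, fun _ => 1, hu, by rw [hs2]; exact hε0, ?_, ?_⟩
      · rw [hs1]
        exact hon
      · rw [hs1]
        exact ⟨hx0, rfl⟩
    refine Finset.mem_image.2 ⟨(Projectivization.mk Qbar (psum univ u (dv c)) hx0, i, j), ?_, ?_⟩
    · simp only [Finset.mem_product, Set.Finite.mem_toFinset, Finset.mem_univ, and_true]
      exact hmem
    · obtain ⟨a, ha⟩ := Projectivization.exists_smul_eq_mk_rep Qbar (psum univ u (dv c)) hx0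
      simp only
      rw [← ha]
      have h2 : ∀ b, (a • psum univ u (dv c)) b = (a : Qbar) * ((u b : Qbar) * c b) := by
        intro b
        rw [Pi.smul_apply, hps]
        rfl
      rw [h2, h2]
      have h3 := hc0 i
      have h4 := hc0 j
      have h5 := (u j).ne_zero
      have h6 := a.ne_zero
      field_simp
  · obtain ⟨J, ⟨hJ1, a, hJ2⟩, hJ3⟩ := hC u (dv c) (fun j a hja => by
      unfold dv
      rw [if_neg (fun h => hja h.symm)]) hu hon
    have hJ : J = univ := by
      have haJ : a ∈ J := by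
        by_contra h
        rw [psum_dv, if_neg h] at hJ2
        exact hJ2 rfl
      ext b
      simp only [Finset.mem_univ, iff_true]
      by_contra hb
      have h2 := hJ1 a b
      rw [hps, hps, psum_dv, psum_dv, if_pos haJ, if_neg hb, zero_mul] at h2
      exact mul_ne_zero (hne a) (hne b) h2
    subst hJ
    have h8 := h1_ratio_le (fun j : (univ : Finset (Fin (n + 1))) => (u j : Qbar))
      ⟨i, Finset.mem_univ i⟩ ⟨j, Finset.mem_univ j⟩ (u j).ne_zero
    refine h8.trans (hJ3.trans ?_)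
    calc C * (1 + hV (dv c)) ≤ |C| * ((n + 2) * B) :=
          mul_le_mul (le_abs_self C) hhV (by linarith) (abs_nonneg C)
      _ = |C| * (n + 2) * B := by ring
      _ ≤ M1 * B := mul_le_mul_of_nonneg_right hM1.le hB0

end Pool.Agent.RAC963.KS
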