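import Mathlib
import Pool.Agent.RAC963.KS.Sols
import Pool.Agent.RAC963.KS.KFold

set_option autoImplicit false

/-! # The ratio sets and their sizes -/

namespace Pool.Agent.RAC963.KS

open Finset
open Pool.Agent.Helper259.AbsHt Pool.Agent.Y215.SK

/-- the size of a finite set of algebraic numbers -/
noncomputable def sz (W : Finset Qbar) : ℝ := ∑ w ∈ W, (1 + h1 w)

lemma sz_nonneg (W : Finset Qbar) : 0 ≤ sz W :=
  Finset.sum_nonneg fun w _ => by linarith [h1_nonneg w]

lemma card_le_sz (W : Finset Qbar) : (W.card : ℝ) ≤ sz W := by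
  unfold sz
  rw [Finset.card_eq_sum_ones]
  push_cast
  exact Finset.sum_le_sum fun w _ => by linarith [h1_nonneg w]

lemma h1_le_sz {W : Finset Qbar} {w : Qbar} (hw : w ∈ W) : h1 w ≤ sz W := by
  have h2 : 1 + h1 w ≤ sz W :=
    Finset.single_le_sum (f := fun w => 1 + h1 w) (fun w _ => by linarith [h1_nonneg w]) hw
  linarith

lemma sz_le {W : Finset Qbar} {B : ℝ} (h : ∀ w ∈ W, h1 w ≤ B) : sz W ≤ W.card * (1 + B) := by
  unfold sz
  refine (Finset.sum_le_card_nsmul _ _ (1 + B) fun w hw => by linarith [h w hw]).trans ?_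
  rw [nsmul_eq_mul]

lemma sz_union (A B : Finset Qbar) [DecidableEq Qbar] : sz (A ∪ B) ≤ sz A + sz B := by
  unfold sz
  rw [← Finset.sum_union_inter]
  have : 0 ≤ ∑ w ∈ A ∩ B, (1 + h1 w) :=
    Finset.sum_nonneg fun w _ => by linarith [h1_nonneg w]
  linarith

lemma sz_biUnion {α : Type} [DecidableEq Qbar] (s : Finset α) (t : α → Finset Qbar) :
    sz (s.biUnion t) ≤ ∑ i ∈ s, sz (t i) := by
  classical
  induction s using Finset.induction_on with
  | empty => simp [sz]
  | insert a s ha ih =>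
    rw [Finset.biUnion_insert, Finset.sum_insert ha]
    exact (sz_union _ _).trans (by linarith)

/-- a minimal vanishing subsum containing a given term -/
lemma minimal {ι : Type} [DecidableEq ι] (A : Finset ι) (f : ι → Qbar)
    (h : ∑ j ∈ A, f j = 0) (j : ι) (hj : j ∈ A) :
    ∃ J ⊆ A, j ∈ J ∧ ∑ i ∈ J, f i = 0 ∧
      ∀ K ⊆ J, K.Nonempty → ∑ i ∈ K, f i = 0 → K = J := by
  classical
  obtain ⟨J, hJ, hmin⟩ := Finset.exists_min_image
    (A.powerset.filter (fun J => j ∈ J ∧ ∑ i ∈ J, f i = 0)) (fun J => J.card)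
    ⟨A, by simp [hj, h]⟩
  rw [Finset.mem_filter, Finset.mem_powerset] at hJ
  obtain ⟨hJA, hjJ, hJ0⟩ := hJ
  refine ⟨J, hJA, hjJ, hJ0, fun K hKJ hKne hK0 => ?_⟩
  by_cases hjK : j ∈ K
  · exact Finset.eq_of_subset_of_card_le hKJ (hmin K (by
      rw [Finset.mem_filter, Finset.mem_powerset]
      exact ⟨hKJ.trans hJA, hjK, hK0⟩))
  · exfalso
    have h1 := hmin (J \ K) (by
      rw [Finset.mem_filter, Finset.mem_powerset]
      refine ⟨Finset.sdiff_subset.trans hJA, Finset.mem_sdiff.2 ⟨hjJ, hjK⟩, ?_⟩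
      have h2 := Finset.sum_sdiff (f := f) hKJ
      rw [hK0, add_zero, hJ0] at h2
      exact h2)
    rw [Finset.card_sdiff_of_subset hKJ] at h1
    have h2 := Finset.card_pos.2 hKne
    have h3 := Finset.card_le_card hKJ
    omega

theorem ratios (Γ : Subgroup Qbarˣ) (hΓ : Γ.FG) (ι : Type) [Fintype ι] [DecidableEq ι] :
    ∃ M : ℕ, ∀ W : Finset Qbar, ∃ R : Finset Qbar, sz R ≤ M * (1 + sz W) ^ M ∧
      ∀ (A : Finset ι) (c : ι → Qbar) (u : ι → Qbarˣ), (∀ j ∈ A, c j ≠ 0 ∧ c j ∈ W) →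
        (∀ j ∈ A, u j ∈ DivHull Γ) → ∑ j ∈ A, c j * (u j : Qbar) = 0 →
        ∀ j ∈ A, ∃ j' ∈ A, j' ≠ j ∧ (u j : Qbar) / (u j' : Qbar) ∈ R := by
  classical
  choose m hm using fun n : ℕ => sols Γ hΓ n
  obtain ⟨N, hN⟩ : ∃ N, N = Fintype.card ι := ⟨_, rfl⟩
  obtain ⟨s1, hs1⟩ : ∃ s1, s1 = ∑ n ∈ Finset.range N, m n := ⟨_, rfl⟩
  obtain ⟨s2, hs2⟩ : ∃ s2, s2 = ∑ n ∈ Finset.range N, m n * (1 + m n) := ⟨_, rfl⟩
  refine ⟨s1 + s2 + N + 2, fun W => ?_⟩
  obtain ⟨B, hB⟩ : ∃ B, B = 1 + sz W := ⟨_, rfl⟩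
  have hszW := sz_nonneg W
  have hB1 : 1 ≤ B := by linarith
  have hB0 : 0 ≤ B := by linarith
  rw [← hB]
  have hex : ∀ (n : ℕ) (c : Fin (n + 1) → Qbar), ∃ R : Finset Qbar,
      c ∈ Fintype.piFinset (fun _ : Fin (n + 1) => W.filter (fun x => x ≠ 0)) →
      (R.card : ℝ) ≤ m n * B ^ (m n) ∧ (∀ x ∈ R, h1 x ≤ m n * B) ∧
      ∀ u : Fin (n + 1) → Qbarˣ, (∀ j, u j ∈ DivHull Γ) → ∑ j, c j * (u j : Qbar) = 0 →
        (∀ J : Finset (Fin (n + 1)), J.Nonempty → ∑ j ∈ J, c j * (u j : Qbar) = 0 → J = univ) →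
        ∀ i j, (u i : Qbar) / u j ∈ R := by
    intro n c
    by_cases hc : c ∈ Fintype.piFinset (fun _ : Fin (n + 1) => W.filter (fun x => x ≠ 0))
    · rw [Fintype.mem_piFinset] at hc
      obtain ⟨R, hR⟩ := hm n B hB1 c (fun j => (Finset.mem_filter.1 (hc j)).2)
        (fun j => by
          have := h1_le_sz (Finset.mem_filter.1 (hc j)).1
          linarith)
      exact ⟨R, fun _ => hR⟩
    · exact ⟨∅, fun h => absurd h hc⟩
  choose R hR using hex
  refine ⟨(Finset.range N).biUnion fun n =>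
    (Fintype.piFinset (fun _ : Fin (n + 1) => W.filter (fun x => x ≠ 0))).biUnion fun c => R n c,
    ?_, ?_⟩
  · refine (sz_biUnion _ _).trans ?_
    have hn : ∀ n ∈ Finset.range N,
        sz ((Fintype.piFinset (fun _ : Fin (n + 1) => W.filter (fun x => x ≠ 0))).biUnion
          fun c => R n c) ≤ ((m n * (1 + m n) : ℕ) : ℝ) * B ^ (s1 + s2 + N + 2) := by
      intro n hn
      have hmn : m n ≤ s1 := by
        rw [hs1]
        exact Finset.single_le_sum (f := m) (fun _ _ => Nat.zero_le _) hn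
      have hnN := Finset.mem_range.1 hn
      refine (sz_biUnion _ _).trans ?_
      have h2 : ∀ c ∈ Fintype.piFinset (fun _ : Fin (n + 1) => W.filter (fun x => x ≠ 0)),
          sz (R n c) ≤ (m n * B ^ (m n)) * (1 + m n * B) := by
        intro c hc
        obtain ⟨h3, h4, _⟩ := hR n c hc
        refine (sz_le h4).trans ?_
        exact mul_le_mul_of_nonneg_right h3 (by positivity)
      refine (Finset.sum_le_card_nsmul _ _ _ h2).trans ?_
      rw [nsmul_eq_mul, Fintype.card_piFinset, Finset.prod_const, Finset.card_univ,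
        Fintype.card_fin]
      have h3 : ((W.filter (fun x => x ≠ 0)).card : ℝ) ≤ B := by
        have h4 : ((W.filter (fun x => x ≠ 0)).card : ℝ) ≤ W.card := by
          exact_mod_cast Finset.card_filter_le _ _
        have := card_le_sz W
        linarith
      have h5 : (1 + (m n : ℝ) * B) ≤ (1 + m n) * B := by nlinarith
      calc (((W.filter (fun x => x ≠ 0)).card ^ (n + 1) : ℕ) : ℝ) *
            ((m n * B ^ (m n)) * (1 + m n * B))
          ≤ B ^ (n + 1) * ((m n * B ^ (m n)) * ((1 + m n) * B)) := by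
            push_cast
            refine mul_le_mul (pow_le_pow_left₀ (Nat.cast_nonneg _) h3 _)
              (mul_le_mul_of_nonneg_left h5 (by positivity)) (by positivity) (by positivity)
        _ = ((m n * (1 + m n) : ℕ) : ℝ) * B ^ (n + 1 + m n + 1) := by
            push_cast
            ring
        _ ≤ _ := by
            refine mul_le_mul_of_nonneg_left (pow_le_pow_right₀ hB1 (by omega)) (by positivity)
    refine (Finset.sum_le_sum hn).trans ?_
    rw [← Finset.sum_mul, ← Nat.cast_sum, ← hs2]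
    refine mul_le_mul_of_nonneg_right ?_ (by positivity)
    exact_mod_cast (by omega : s2 ≤ s1 + s2 + N + 2)
  · intro A c u hc hu hsum j hj
    obtain ⟨J, hJA, hjJ, hJ0, hmin⟩ := minimal A (fun i => c i * (u i : Qbar)) hsum j hj
    obtain ⟨n, hn⟩ : ∃ n, J.card = n + 1 := ⟨J.card - 1, by
      have := Finset.card_pos.2 ⟨j, hjJ⟩
      omega⟩
    let e : Fin (n + 1) ≃ J := (J.equivFinOfCardEq hn).symm
    let g : Fin (n + 1) ↪ ι := e.toEmbedding.trans (Function.Embedding.subtype _)
    have hg : ∀ i, g i ∈ J := fun i => (e i).2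
    have hmap : (univ : Finset (Fin (n + 1))).map g = J := by
      apply Finset.eq_of_subset_of_card_le
      · intro x hx
        obtain ⟨i, -, rfl⟩ := Finset.mem_map.1 hx
        exact hg i
      · rw [Finset.card_map, Finset.card_univ, Fintype.card_fin, hn]
    have hnN : n < N := by
      rw [hN]
      have := Finset.card_le_univ J
      omega
    have hcm : (fun i => c (g i)) ∈
        Fintype.piFinset (fun _ : Fin (n + 1) => W.filter (fun x => x ≠ 0)) := by
      rw [Fintype.mem_piFinset]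
      intro i
      have h2 := hc (g i) (hJA (hg i))
      exact Finset.mem_filter.2 ⟨h2.2, h2.1⟩
    obtain ⟨_, _, h4⟩ := hR n (fun i => c (g i)) hcm
    have h5 := h4 (fun i => u (g i)) (fun i => hu _ (hJA (hg i)))
      (by
        have h6 := hJ0
        rw [← hmap, Finset.sum_map] at h6
        exact h6)
      (by
        intro K hK hs
        have h6 := hmin (K.map g)
          (by
            intro x hx
            obtain ⟨i, -, rfl⟩ := Finset.mem_map.1 hx
            exact hg i)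
          (hK.map) (by rw [Finset.sum_map]; exact hs)
        rw [← hmap] at h6
        exact Finset.map_injective g h6)
    -- a second element
    obtain ⟨j', hj', hne⟩ : ∃ j' ∈ J, j' ≠ j := by
      by_contra hcon
      push Not at hcon
      have h6 : J = {j} := Finset.eq_singleton_iff_unique_mem.2 ⟨hjJ, hcon⟩
      rw [h6, Finset.sum_singleton] at hJ0
      exact mul_ne_zero (hc j hj).1 (u j).ne_zero hJ0
    refine ⟨j', hJA hj', hne, ?_⟩
    rw [Finset.mem_biUnion]
    refine ⟨n, Finset.mem_range.2 hnN, ?_⟩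
    rw [Finset.mem_biUnion]
    refine ⟨_, hcm, ?_⟩
    have h7 : ∀ (i : ι) (hi : i ∈ J), g (e.symm ⟨i, hi⟩) = i := by
      intro i hi
      show ((e (e.symm ⟨i, hi⟩) : J) : ι) = i
      rw [Equiv.apply_symm_apply]
    have h8 := h5 (e.symm ⟨j, hjJ⟩) (e.symm ⟨j', hj'⟩)
    simp only [h7] at h8
    exact h8

/-! ### polynomial bounds -/

/-- bounded by a polynomial of the sizes -/
def PB (f : Finset Qbar → Finset Qbar → ℝ) : Prop :=
  ∃ M : ℕ, ∀ L D, f L D ≤ M * (1 + sz L + sz D) ^ M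

lemma X_ge (L D : Finset Qbar) : 1 ≤ 1 + sz L + sz D := by
  linarith [sz_nonneg L, sz_nonneg D]

lemma PB.mono {f g : Finset Qbar → Finset Qbar → ℝ} (hg : PB g) (h : ∀ L D, f L D ≤ g L D) :
    PB f := by
  obtain ⟨M, hM⟩ := hg
  exact ⟨M, fun L D => (h L D).trans (hM L D)⟩

lemma PB.up {f : Finset Qbar → Finset Qbar → ℝ} {M M' : ℕ} (h : M ≤ M')
    (hM : ∀ L D, f L D ≤ M * (1 + sz L + sz D) ^ M) (L D : Finset Qbar) :
    f L D ≤ M' * (1 + sz L + sz D) ^ M' := by
  have h1 := X_ge L D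
  refine (hM L D).trans ?_
  refine mul_le_mul (by exact_mod_cast h) (pow_le_pow_right₀ h1 h) (by positivity)
    (Nat.cast_nonneg _)

lemma PB.const (c : ℝ) : PB (fun _ _ => c) := by
  obtain ⟨M, hM⟩ := exists_nat_ge c
  refine ⟨M, fun L D => ?_⟩
  have h1 := one_le_pow₀ (X_ge L D) (n := M)
  have h2 : (0 : ℝ) ≤ M := Nat.cast_nonneg M
  nlinarith

lemma PB.add {f g : Finset Qbar → Finset Qbar → ℝ} (hf : PB f) (hg : PB g) :
    PB (fun L D => f L D + g L D) := by
  obtain ⟨M, hM⟩ := hf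
  obtain ⟨M', hM'⟩ := hg
  refine ⟨M + M', fun L D => ?_⟩
  have h1 := X_ge L D
  have h2 : (1 + sz L + sz D) ^ M ≤ (1 + sz L + sz D) ^ (M + M') :=
    pow_le_pow_right₀ h1 (by omega)
  have h3 : (1 + sz L + sz D) ^ M' ≤ (1 + sz L + sz D) ^ (M + M') :=
    pow_le_pow_right₀ h1 (by omega)
  calc f L D + g L D ≤ M * (1 + sz L + sz D) ^ M + M' * (1 + sz L + sz D) ^ M' :=
        add_le_add (hM L D) (hM' L D)
    _ ≤ M * (1 + sz L + sz D) ^ (M + M') + M' * (1 + sz L + sz D) ^ (M + M') :=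
        add_le_add (mul_le_mul_of_nonneg_left h2 (Nat.cast_nonneg _))
          (mul_le_mul_of_nonneg_left h3 (Nat.cast_nonneg _))
    _ = _ := by
        push_cast
        ring

lemma PB.mul {f g : Finset Qbar → Finset Qbar → ℝ} (hf : PB f) (hg : PB g)
    (hf0 : ∀ L D, 0 ≤ f L D) (hg0 : ∀ L D, 0 ≤ g L D) :
    PB (fun L D => f L D * g L D) := by
  obtain ⟨M, hM⟩ := hf
  obtain ⟨M', hM'⟩ := hg
  refine ⟨M * M' + (M + M'), fun L D => ?_⟩
  have h1 := X_ge L D
  calc f L D * g L D ≤ (M * (1 + sz L + sz D) ^ M) * (M' * (1 + sz L + sz D) ^ M') :=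
        mul_le_mul (hM L D) (hM' L D) (hg0 L D) (by positivity)
    _ = ((M * M' : ℕ) : ℝ) * (1 + sz L + sz D) ^ (M + M') := by
        push_cast
        rw [pow_add]
        ring
    _ ≤ _ := by
        refine mul_le_mul ?_ (pow_le_pow_right₀ h1 (by omega)) (by positivity) (by positivity)
        exact_mod_cast (by omega : M * M' ≤ M * M' + (M + M'))

lemma PB.pow {f : Finset Qbar → Finset Qbar → ℝ} (hf : PB f) (hf0 : ∀ L D, 0 ≤ f L D) (n : ℕ) :
    PB (fun L D => f L D ^ n) := by
  induction n with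
  | zero => simpa using PB.const 1
  | succ n ih =>
    simp only [pow_succ]
    exact ih.mul hf (fun L D => pow_nonneg (hf0 L D) n) hf0

lemma PB.sum {f : ℕ → Finset Qbar → Finset Qbar → ℝ} (n : ℕ) (hf : ∀ i, PB (f i)) :
    PB (fun L D => ∑ i ∈ Finset.range n, f i L D) := by
  induction n with
  | zero => simpa using PB.const 0
  | succ n ih =>
    simp only [Finset.sum_range_succ]
    exact ih.add (hf n)

/-- the coefficients of the equations -/
noncomputable def LW (L W : Finset Qbar) : Finset Qbar := by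
  classical
  exact (L ×ˢ W).image (fun p => p.1 * p.2) ∪ (L ×ˢ W).image (fun p => -(p.1 * p.2))

lemma sz_LW (L W : Finset Qbar) : sz (LW L W) ≤ 2 * ((sz L * sz W) * (1 + (sz L + sz W))) := by
  classical
  have h0 : 0 ≤ sz L := sz_nonneg L
  have h0' : 0 ≤ sz W := sz_nonneg W
  have hc : ((L ×ˢ W).card : ℝ) ≤ sz L * sz W := by
    rw [Finset.card_product]
    push_cast
    exact mul_le_mul (card_le_sz L) (card_le_sz W) (Nat.cast_nonneg _) h0
  have hh : ∀ p ∈ L ×ˢ W, h1 (p.1 * p.2) ≤ sz L + sz W := by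
    intro p hp
    rw [Finset.mem_product] at hp
    exact (h1_mul_le _ _).trans (add_le_add (h1_le_sz hp.1) (h1_le_sz hp.2))
  have h2 : sz ((L ×ˢ W).image (fun p => p.1 * p.2)) ≤ (sz L * sz W) * (1 + (sz L + sz W)) := by
    refine (sz_le (B := sz L + sz W) ?_).trans ?_
    · intro w hw
      obtain ⟨p, hp, rfl⟩ := Finset.mem_image.1 hw
      exact hh p hp
    · refine mul_le_mul_of_nonneg_right ?_ (by linarith)
      refine le_trans ?_ hc
      exact_mod_cast Finset.card_image_le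
  have h3 : sz ((L ×ˢ W).image (fun p => -(p.1 * p.2))) ≤
      (sz L * sz W) * (1 + (sz L + sz W)) := by
    refine (sz_le (B := sz L + sz W) ?_).trans ?_
    · intro w hw
      obtain ⟨p, hp, rfl⟩ := Finset.mem_image.1 hw
      rw [h1_neg]
      exact hh p hp
    · refine mul_le_mul_of_nonneg_right ?_ (by linarith)
      refine le_trans ?_ hc
      exact_mod_cast Finset.card_image_le
  unfold LW
  refine (sz_union _ _).trans ?_
  linarith

/-- the coefficients after one merging -/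
noncomputable def nextW (Rf : Finset Qbar → Finset Qbar) (L W : Finset Qbar) : Finset Qbar := by
  classical
  exact W ∪ (Rf (LW L W) ×ˢ (W ×ˢ W)).image (fun p => p.1 * p.2.1 + p.2.2)

/-- the coefficients after `i` mergings -/
noncomputable def Wseq (Rf : Finset Qbar → Finset Qbar) (L D : Finset Qbar) : ℕ → Finset Qbar
  | 0 => D
  | i + 1 => nextW Rf L (Wseq Rf L D i)

lemma sz_next (Rf : Finset Qbar → Finset Qbar) (L W : Finset Qbar) :
    sz (nextW Rf L W) ≤ sz W + (sz (Rf (LW L W)) * (sz W * sz W)) *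
      (1 + (1 + (sz (Rf (LW L W)) + sz W) + sz W)) := by
  classical
  obtain ⟨R, hR⟩ : ∃ R, R = Rf (LW L W) := ⟨_, rfl⟩
  have h0 : 0 ≤ sz R := sz_nonneg R
  have h0' : 0 ≤ sz W := sz_nonneg W
  unfold nextW
  rw [← hR]
  refine (sz_union _ _).trans (add_le_add le_rfl ?_)
  refine (sz_le (B := 1 + (sz R + sz W) + sz W) ?_).trans ?_
  · intro w hw
    obtain ⟨p, hp, rfl⟩ := Finset.mem_image.1 hw
    rw [Finset.mem_product, Finset.mem_product] at hp
    refine (h1_add_le _ _).trans ?_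
    have h2 := h1_mul_le p.1 p.2.1
    have h3 := h1_le_sz hp.1
    have h4 := h1_le_sz hp.2.1
    have h5 := h1_le_sz hp.2.2
    have h6 : Real.log 2 ≤ 1 := by
      have := Real.log_two_lt_d9
      linarith
    linarith
  · refine mul_le_mul_of_nonneg_right ?_ (by linarith)
    have h2 : ((Rf (LW L W) ×ˢ (W ×ˢ W)).card : ℝ) ≤ sz R * (sz W * sz W) := by
      rw [← hR, Finset.card_product, Finset.card_product]
      push_cast
      exact mul_le_mul (card_le_sz R) (mul_le_mul (card_le_sz W) (card_le_sz W)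
        (Nat.cast_nonneg _) h0') (by positivity) h0
    refine le_trans ?_ h2
    rw [← hR]
    exact_mod_cast Finset.card_image_le

lemma Wseq_pb (Rf : Finset Qbar → Finset Qbar) (M : ℕ)
    (hM : ∀ W, sz (Rf W) ≤ M * (1 + sz W) ^ M) (i : ℕ) :
    PB (fun L D => sz (Wseq Rf L D i)) ∧
      PB (fun L D => sz (Rf (LW L (Wseq Rf L D i)))) := by
  have hL : PB (fun L _ => sz L) := ⟨1, fun L D => by
    have := sz_nonneg D
    simp only [Nat.cast_one, pow_one, one_mul]
    linarith⟩
  have key : ∀ f : Finset Qbar → Finset Qbar → Finset Qbar, PB (fun L D => sz (f L D)) →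
      PB (fun L D => sz (Rf (LW L (f L D)))) := by
    intro f hf
    have h2 : PB (fun L D => sz (LW L (f L D))) := by
      refine PB.mono (g := fun L D => 2 * ((sz L * sz (f L D)) * (1 + (sz L + sz (f L D)))))
        ?_ (fun L D => sz_LW L (f L D))
      have a1 := hL.mul hf (fun L _ => sz_nonneg L) (fun L D => sz_nonneg _)
      have a2 := (PB.const 1).add (hL.add hf)
      have a3 := a1.mul a2 (fun L D => mul_nonneg (sz_nonneg L) (sz_nonneg _))
        (fun L D => by linarith [sz_nonneg L, sz_nonneg (f L D)])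
      exact (PB.const 2).mul a3 (fun _ _ => by norm_num) (fun L D =>
        mul_nonneg (mul_nonneg (sz_nonneg L) (sz_nonneg _))
          (by linarith [sz_nonneg L, sz_nonneg (f L D)]))
    refine PB.mono (g := fun L D => M * (1 + sz (LW L (f L D))) ^ M) ?_ (fun L D => hM _)
    have a4 := ((PB.const 1).add h2).pow (fun L D => by linarith [sz_nonneg (LW L (f L D))]) M
    exact (PB.const M).mul a4 (fun _ _ => Nat.cast_nonneg _)
      (fun L D => pow_nonneg (by linarith [sz_nonneg (LW L (f L D))]) _)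
  induction i with
  | zero =>
    have h0 : PB (fun L D => sz (Wseq Rf L D 0)) := ⟨1, fun L D => by
      have := sz_nonneg L
      simp only [Nat.cast_one, pow_one, one_mul, Wseq]
      linarith⟩
    exact ⟨h0, key _ h0⟩
  | succ i ih =>
    obtain ⟨ihW, ihR⟩ := ih
    have h1 : PB (fun L D => sz (Wseq Rf L D (i + 1))) := by
      refine PB.mono (g := fun L D => sz (Wseq Rf L D i) +
        (sz (Rf (LW L (Wseq Rf L D i))) * (sz (Wseq Rf L D i) * sz (Wseq Rf L D i))) *
          (1 + (1 + (sz (Rf (LW L (Wseq Rf L D i))) + sz (Wseq Rf L D i)) +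
            sz (Wseq Rf L D i)))) ?_ (fun L D => sz_next Rf L (Wseq Rf L D i))
      have a1 := ihW.mul ihW (fun L D => sz_nonneg _) (fun L D => sz_nonneg _)
      have a2 := ihR.mul a1 (fun L D => sz_nonneg _)
        (fun L D => mul_nonneg (sz_nonneg _) (sz_nonneg _))
      have a3 := (PB.const 1).add (((PB.const 1).add (ihR.add ihW)).add ihW)
      exact ihW.add (a2.mul a3 (fun L D => mul_nonneg (sz_nonneg _)
        (mul_nonneg (sz_nonneg _) (sz_nonneg _))) (fun L D => by
          linarith [sz_nonneg (Rf (LW L (Wseq Rf L D i))), sz_nonneg (Wseq Rf L D i)]))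
    exact ⟨h1, key _ h1⟩

end Pool.Agent.RAC963.KS
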