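import Mathlib
import Pool.Agent.RAC963.KS.Iter

set_option autoImplicit false

/-! # The size of `l_1 A + ⋯ + l_k A` for a set `A` of short sums over a group of finite rank -/

namespace Pool.Agent.RAC963.KS

open Finset
open Pool.Agent.Helper259.AbsHt Pool.Agent.Y215.SK

lemma pc_bound (E κ : Type) [Fintype E] [Fintype κ] (w r : ℕ) (W R : ℝ) (hw : (w : ℝ) + 1 ≤ W)
    (hr : (r : ℝ) + 1 ≤ R) :
    (pc E κ w r : ℝ) ≤ (((2 : ℝ) ^ Fintype.card κ) ^ Fintype.card E *
      (W ^ Fintype.card κ) ^ Fintype.card E) *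
      (((Fintype.card E * Fintype.card κ : ℕ) : ℝ) ^ (Fintype.card E * Fintype.card κ) *
        R ^ (Fintype.card E * Fintype.card κ)) := by
  unfold pc
  generalize Fintype.card κ = K
  generalize Fintype.card E = E'
  push_cast
  have hw0 : (0 : ℝ) ≤ w := Nat.cast_nonneg w
  have hr0 : (0 : ℝ) ≤ r := Nat.cast_nonneg r
  have hW0 : (0 : ℝ) ≤ W := by linarith
  refine mul_le_mul (mul_le_mul_of_nonneg_left ?_ (by positivity))
    (mul_le_mul_of_nonneg_left ?_ (by positivity)) (by positivity) (by positivity)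
  · exact pow_le_pow_left₀ (by positivity) (pow_le_pow_left₀ (by positivity) hw _) _
  · exact pow_le_pow_left₀ (by positivity) hr _

lemma pb_final (Rf : Finset Qbar → Finset Qbar) (M0 : ℕ)
    (hRf1 : ∀ W, sz (Rf W) ≤ M0 * (1 + sz W) ^ M0) (k K E : ℕ) :
    PB (fun L D => (((K + 1 : ℕ) : ℝ) ^ k) *
      ((((2 : ℝ) ^ K) ^ E * ((1 + sz (Wseq Rf L D K)) ^ K) ^ E) *
        (((E * K : ℕ) : ℝ) ^ (E * K) *
          (1 + ∑ i ∈ Finset.range (K + 1), sz (Rf (LW L (Wseq Rf L D i)))) ^ (E * K)))) := by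
  have n1 : ∀ L D : Finset Qbar, 0 ≤ 1 + sz (Wseq Rf L D K) := fun L D => by
    linarith [sz_nonneg (Wseq Rf L D K)]
  have n2 : ∀ L D : Finset Qbar,
      0 ≤ 1 + ∑ i ∈ Finset.range (K + 1), sz (Rf (LW L (Wseq Rf L D i))) := fun L D => by
    have : 0 ≤ ∑ i ∈ Finset.range (K + 1), sz (Rf (LW L (Wseq Rf L D i))) :=
      Finset.sum_nonneg fun _ _ => sz_nonneg _
    linarith
  have a1 : PB (fun L D => ((1 + sz (Wseq Rf L D K)) ^ K) ^ E) :=
    (((PB.const 1).add (Wseq_pb Rf M0 hRf1 K).1).pow n1 K).pow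
      (fun L D => pow_nonneg (n1 L D) _) E
  have a2 : PB (fun L D =>
      (1 + ∑ i ∈ Finset.range (K + 1), sz (Rf (LW L (Wseq Rf L D i)))) ^ (E * K)) :=
    ((PB.const 1).add (PB.sum (f := fun i L D => sz (Rf (LW L (Wseq Rf L D i)))) (K + 1)
      fun i => (Wseq_pb Rf M0 hRf1 i).2)).pow n2 _
  have a3 := (PB.const (((2 : ℝ) ^ K) ^ E)).mul a1 (fun _ _ => by positivity)
    (fun L D => pow_nonneg (pow_nonneg (n1 L D) _) _)
  have a4 := (PB.const (((E * K : ℕ) : ℝ) ^ (E * K))).mul a2 (fun _ _ => by positivity)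
    (fun L D => pow_nonneg (n2 L D) _)
  have a5 := a3.mul a4
    (fun L D => mul_nonneg (by positivity) (pow_nonneg (pow_nonneg (n1 L D) _) _))
    (fun L D => mul_nonneg (by positivity) (pow_nonneg (n2 L D) _))
  exact (PB.const (((K + 1 : ℕ) : ℝ) ^ k)).mul a5 (fun _ _ => by positivity)
    (fun L D => mul_nonneg (mul_nonneg (by positivity) (pow_nonneg (pow_nonneg (n1 L D) _) _))
      (mul_nonneg (by positivity) (pow_nonneg (n2 L D) _)))

lemma cast_bound (a b N k : ℕ) (c d : ℝ) (h : a ^ k ≤ b * N) (hb : (b : ℝ) ≤ c) (hc : c ≤ d) :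
    (a : ℝ) ^ k ≤ d * N := by
  have h1 : (a : ℝ) ^ k ≤ b * N := by exact_mod_cast h
  have hN : (0 : ℝ) ≤ N := Nat.cast_nonneg N
  nlinarith

open Classical in
theorem poly (Γ : Subgroup Qbarˣ) (hΓ : Γ.FG) (κ : Type) [Fintype κ] (k : ℕ) (hk : 1 ≤ k) :
    ∃ M : ℕ, ∀ (l : Fin k → Qbar) (_ : ∀ i, l i ≠ 0) (L D A : Finset Qbar), (∀ i, l i ∈ L) →
      (∀ z ∈ A, ∃ (lam : κ → Qbarˣ) (w : κ → Qbar), (∀ b, lam b ∈ DivHull Γ ∧ w b ∈ D) ∧
        z = ∑ b, (lam b : Qbar) * w b) →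
      (A.card : ℝ) ^ k ≤ M * (1 + sz L + sz D) ^ M *
        ((Fintype.piFinset (fun _ : Fin k => A)).image (fun y => ∑ i, l i * y i)).card := by
  obtain ⟨M0, hM0⟩ := ratios Γ hΓ ((Fin k × Bool) × κ)
  choose Rf hRf1 hRf2 using hM0
  obtain ⟨M, hM⟩ := pb_final Rf M0 hRf1 k (Fintype.card κ) (Fintype.card (Fin k × Bool))
  refine ⟨M, fun l hl L D A hlL hrep => ?_⟩
  have hmain := kfold (κ := κ) {x : Qbar | ∃ u : Qbarˣ, u ∈ DivHull Γ ∧ (u : Qbar) = x}
    (by
      rintro ⟨u, _, hu⟩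
      exact u.ne_zero hu)
    (Wseq Rf L D) (fun i => Rf (LW L (Wseq Rf L D i)))
    (by
      intro i
      show Wseq Rf L D i ⊆ nextW Rf L (Wseq Rf L D i)
      unfold nextW
      exact Finset.subset_union_left)
    (by
      intro i x hx w hw w' hw'
      show x * w + w' ∈ nextW Rf L (Wseq Rf L D i)
      unfold nextW
      refine Finset.mem_union_right _ (Finset.mem_image.2 ⟨(x, (w, w')), ?_, rfl⟩)
      exact Finset.mem_product.2 ⟨hx, Finset.mem_product.2 ⟨hw, hw'⟩⟩)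
    k hk l hl
    (by
      intro i A c u hc hu hsum j hj
      let u' : (Fin k × Bool) × κ → Qbarˣ := fun j => if h : j ∈ A then (hu j h).choose else 1
      have hu' : ∀ j (h : j ∈ A), u' j ∈ DivHull Γ ∧ (u' j : Qbar) = u j := by
        intro j h
        simp only [u', dif_pos h]
        exact (hu j h).choose_spec
      obtain ⟨j', hj', hne, hR⟩ := hRf2 (LW L (Wseq Rf L D i)) A c u'
        (by
          intro j hj
          obtain ⟨h1, w, hw, h2⟩ := hc j hj
          refine ⟨h1, ?_⟩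
          unfold LW
          rcases h2 with h2 | h2
          · exact Finset.mem_union_left _ (Finset.mem_image.2 ⟨(l j.1.1, w),
              Finset.mem_product.2 ⟨hlL _, hw⟩, h2.symm⟩)
          · exact Finset.mem_union_right _ (Finset.mem_image.2 ⟨(l j.1.1, w),
              Finset.mem_product.2 ⟨hlL _, hw⟩, h2.symm⟩))
        (fun j hj => (hu' j hj).1)
        (by
          rw [← hsum]
          exact Finset.sum_congr rfl fun j hj => by rw [(hu' j hj).2]) j hj
      refine ⟨j', hj', hne, ?_⟩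
      rw [(hu' j hj).2, (hu' j' hj').2] at hR
      exact hR)
    (Wseq Rf L D (Fintype.card κ)).card
    (∑ i ∈ Finset.range (Fintype.card κ + 1), (Rf (LW L (Wseq Rf L D i))).card) le_rfl
    (by
      intro i hi
      exact Finset.single_le_sum (f := fun i => (Rf (LW L (Wseq Rf L D i))).card)
        (fun _ _ => Nat.zero_le _) (Finset.mem_range.2 (by omega)))
    A
    (by
      intro z hz
      obtain ⟨lam, w, h1, h2⟩ := hrep z hz
      exact ⟨fun b => (lam b : Qbar), w, fun b => ⟨⟨lam b, (h1 b).1, rfl⟩, (h1 b).2⟩, h2⟩)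
  have h3 : ((Wseq Rf L D (Fintype.card κ)).card : ℝ) + 1 ≤
      1 + sz (Wseq Rf L D (Fintype.card κ)) := by
    linarith [card_le_sz (Wseq Rf L D (Fintype.card κ))]
  have h4 : ((∑ i ∈ Finset.range (Fintype.card κ + 1),
        (Rf (LW L (Wseq Rf L D i))).card : ℕ) : ℝ) + 1 ≤
      1 + ∑ i ∈ Finset.range (Fintype.card κ + 1), sz (Rf (LW L (Wseq Rf L D i))) := by
    have h5 : ((∑ i ∈ Finset.range (Fintype.card κ + 1),
        (Rf (LW L (Wseq Rf L D i))).card : ℕ) : ℝ) ≤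
        ∑ i ∈ Finset.range (Fintype.card κ + 1), sz (Rf (LW L (Wseq Rf L D i))) := by
      rw [Nat.cast_sum]
      exact Finset.sum_le_sum fun i _ => card_le_sz _
    linarith
  have h6 := pc_bound (Fin k × Bool) κ _ _ _ _ h3 h4
  refine cast_bound A.card _ _ k _ _ hmain ?_ (hM L D)
  rw [Nat.cast_mul, Nat.cast_pow]
  exact mul_le_mul_of_nonneg_left h6 (pow_nonneg (Nat.cast_nonneg _) _)

end Pool.Agent.RAC963.KS
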